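import Pool.Agent.MP_5cc272_an.H57.Limit

open Polynomial Finset Filter

namespace Pool.Agent.Results.MP_5cc272_an.SmallHaar

open Pool.Agent.MP_5cc272_an.H57

/-- A polynomial hypergroup with `0` in the dual space, `h 2 < 2` and `liminf h < 2`. -/
theorem result : ∃ (c : ℕ → ℝ) (P : ℕ → ℝ[X]) (h : ℕ → ℝ),
    (∀ n, 1 ≤ n → 0 < c n ∧ c n < 1) ∧ P 0 = 1 ∧ P 1 = X ∧
    (∀ n, 1 ≤ n → X * P n = C (1 - c n) * P (n + 1) + C (c n) * P (n - 1)) ∧
    (∀ m n, ∃ g : ℕ → ℝ, (∀ k, 0 ≤ g k) ∧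
      P m * P n = ∑ k ∈ Finset.range (m + n + 1), C (g k) * P k) ∧
    (∀ n, h n = ∏ k ∈ Finset.Icc 1 n, (if k = 1 then 1 else 1 - c (k - 1)) / c k) ∧
    (∀ n, |(P n).eval 0| ≤ 1) ∧
    h 2 < 2 ∧ Filter.liminf (fun n => (h n : EReal)) Filter.atTop < 2 := by
  obtain ⟨l, x, hl, hp, h0, hn, hb⟩ := exists_limit
  set p : ℕ → ℝ := fun n => (op l n).eval x with hpdef
  have xp : 0 < x := by simpa using hp 1
  have pp : ∀ n, 0 < p n := hp
  have prec : ∀ n, p (n + 2) = x * p (n + 1) - l (n + 1) * p n := fun n => by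
    simp [hpdef, op_succ]
  set c : ℕ → ℝ := fun n => l n * p (n - 1) / (x * p n) with hc
  have ha : ∀ n, 1 - c (n + 1) = p (n + 2) / (x * p (n + 1)) := fun n => by
    have := (pp (n + 1)).ne'
    simp only [hc, prec, Nat.add_sub_cancel]; field_simp
  set P : ℕ → ℝ[X] := fun n => C (p n)⁻¹ * (op l n).comp (C x * X) with hP
  have hQ : ∀ n, (op l n).comp (C x * X) = C (p n) * P n := fun n => by
    simp only [hP]; rw [← mul_assoc, ← C_mul, mul_inv_cancel₀ (pp n).ne', C_1, one_mul]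
  have hh : ∀ n, ∏ k ∈ Finset.Icc 1 n, (if k = 1 then 1 else 1 - c (k - 1)) / c k =
      p n ^ 2 / nrm l n := by
    intro n
    induction n with
    | zero => simp [hpdef]
    | succ n ih =>
      rw [Finset.prod_Icc_succ_top (by omega), ih, nrm_succ]
      have n1 : nrm l n ≠ 0 := (Finset.prod_pos fun i _ => hl _ (by omega)).ne'
      have n2 := (hl (n + 1) (by omega)).ne'
      have n3 := (pp n).ne'
      have n4 := (pp (n + 1)).ne'
      rcases n with _ | n
      · have p0 : p 0 = 1 := by simp [hpdef]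
        have p1 : p 1 = x := by simp [hpdef]
        simp only [hc, zero_add, if_true, Nat.sub_self, p0, p1, nrm_zero]; field_simp
      · rw [if_neg (by omega), Nat.add_sub_cancel, ha]
        simp only [hc, Nat.add_sub_cancel]; field_simp
  have hle : ∀ i, p (3 ^ i * 2) ^ 2 / nrm l (3 ^ i * 2) ≤ 7 / 4 := fun i =>
    (div_le_iff₀ (Finset.prod_pos fun i _ => hl _ (by omega))).2 (hb i)
  refine ⟨c, P, fun n => p n ^ 2 / nrm l n, fun n hn => ?_, ?_, ?_, fun n hn => ?_,
    fun m n => ?_, fun n => (hh n).symm, fun n => ?_, ?_, ?_⟩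
  · obtain ⟨n, rfl⟩ := Nat.exists_eq_add_of_le' hn
    refine ⟨div_pos (mul_pos (hl _ (by omega)) (pp _)) (mul_pos xp (pp _)), ?_⟩
    have := div_pos (pp (n + 2)) (mul_pos xp (pp (n + 1)))
    linarith [ha n]
  · simp [hP, hpdef]
  · simp only [hP, hpdef, op_one, eval_X, X_comp]
    rw [← mul_assoc, ← C_mul, inv_mul_cancel₀ xp.ne', C_1, one_mul]
  · obtain ⟨n, rfl⟩ := Nat.exists_eq_add_of_le' hn
    have e := congrArg (fun F => F.comp (C x * X)) (op_succ l n)
    simp only [sub_comp, mul_comp, X_comp, C_comp, hQ] at e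
    have n4 := (pp (n + 1)).ne'
    have u : C (x * p (n + 1)) ≠ (0 : ℝ[X]) := by simp [xp.ne', n4]
    apply mul_left_cancel₀ u
    rw [ha, Nat.add_sub_cancel, mul_add, ← mul_assoc (C _) (C _), ← mul_assoc (C _) (C _),
      ← C_mul, ← C_mul, mul_div_cancel₀ _ (mul_pos xp (pp _)).ne']
    simp only [hc, Nat.add_sub_cancel]
    rw [mul_div_cancel₀ _ (mul_pos xp (pp _)).ne', e, C_mul, C_mul]
    ring
  · obtain ⟨g, g0, hg⟩ := hn m n
    refine ⟨fun k => g k * p k / (p m * p n),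
      fun k => div_nonneg (mul_nonneg (g0 k) (pp k).le) (mul_pos (pp m) (pp n)).le, ?_⟩
    have e := congrArg (fun F => F.comp (C x * X)) hg
    simp only [mul_comp, Polynomial.sum_comp, C_comp, hQ] at e
    have u : C (p m * p n) ≠ (0 : ℝ[X]) := by simp [(pp m).ne', (pp n).ne']
    apply mul_left_cancel₀ u
    rw [C_mul, mul_mul_mul_comm, e, Finset.mul_sum]
    refine Finset.sum_congr rfl fun k _ => ?_
    rw [← C_mul, ← mul_assoc (C (g k)), ← mul_assoc (C (p m * p n)), ← C_mul, ← C_mul,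
      mul_div_cancel₀ _ (mul_pos (pp m) (pp n)).ne']
  · simp only [hP, eval_mul, eval_C, eval_comp, eval_X, mul_zero, abs_mul]
    rw [abs_of_pos (inv_pos.2 (pp n)), inv_mul_le_iff₀ (pp n), mul_one]
    exact h0 n
  · have := hle 0
    norm_num at this ⊢
    linarith
  · refine lt_of_le_of_lt (Filter.liminf_le_of_frequently_le' (x := ((7 / 4 : ℝ) : EReal)) ?_) ?_
    · rw [Filter.frequently_atTop]
      intro n
      refine ⟨3 ^ n * 2, ?_, EReal.coe_le_coe_iff.2 (hle n)⟩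
      have := Nat.lt_pow_self (n := n) (by norm_num : 1 < 3)
      omega
    · exact EReal.coe_lt_coe_iff.2 (by norm_num : (7 / 4 : ℝ) < 2)

end Pool.Agent.Results.MP_5cc272_an.SmallHaar
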